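import Pool.Agent.Work.MP_3e1351_al.Ct3.Gen

/-! Heavy points and the closure step at one scale. -/

namespace Pool.Agent.Work.MP_3e1351_al.Ct3

open Finset Metric Pool.Agent.Work.MP_3e1351_al.Ct

variable {X : Type} [MetricSpace X] {n : ℕ}

theorem exists_RZ (v : Fin n → ℝ) : ∃ F : (Fin n → Bool) → ℝ, (∀ ε, F ε ^ 2 ≤ 4 * ∑ j, v j ^ 2) ∧
    ∀ j, ∑ ε : Fin n → Bool, sg (ε j) * F ε = 2 ^ n * v j := by
  have hS : 0 ≤ ∑ j, v j ^ 2 := sum_nonneg fun _ _ => sq_nonneg _
  rcases hS.eq_or_lt with e | hS'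
  · refine ⟨fun _ => 0, fun _ => by rw [← e]; simp, fun j => ?_⟩
    have := (sum_eq_zero_iff_of_nonneg fun _ _ => sq_nonneg _).1 e.symm j (mem_univ j)
    simp [pow_eq_zero_iff two_ne_zero |>.1 this]
  · obtain ⟨S, hT⟩ : ∃ S, S = √(∑ j, v j ^ 2) := ⟨_, rfl⟩
    have S0 : 0 < S := hT ▸ Real.sqrt_pos.2 hS'
    have S2 : S ^ 2 = ∑ j, v j ^ 2 := by rw [hT, Real.sq_sqrt hS]
    have hc : ∑ j, (v j / S) ^ 2 ≤ 1 := by
      rw [sum_congr rfl fun j _ => div_pow (v j) S 2, ← sum_div, S2, div_self hS'.ne']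
    refine ⟨fun ε => 2 * S * rz (fun j => v j / S) ε fun _ => 1, fun ε => ?_, fun j => ?_⟩
    · have h1 := rz_abs hc ε (u := fun _ => 1) fun _ => abs_one.le
      have h2 := (sq_le_one_iff_abs_le_one _).2 h1
      rw [← S2, mul_pow, mul_pow]
      nlinarith [sq_nonneg S]
    · rw [sum_congr rfl (g := fun ε => 2 * S * (sg (ε j) * rz (fun j => v j / S) ε fun _ => 1))
        fun ε _ => by ring, ← mul_sum, rz_avg]
      field_simp

/-- a finitely additive weight of total mass at most one -/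
structure Ms (w : Set X → ℝ) : Prop where
  nn : ∀ A, 0 ≤ w A
  add : ∀ A B, A ⊆ B → w B = w A + w (B \ A)
  le : w Set.univ ≤ 1

variable {w : Set X → ℝ} {t : ℝ}

omit [MetricSpace X] in
theorem Ms.mono (h : Ms w) {A B : Set X} (hAB : A ⊆ B) : w A ≤ w B := by
  rw [h.add A B hAB]
  linarith [h.nn (B \ A)]

/-- the annulus at scale `t` -/
def Ann (t : ℝ) (x : X) : Set X := closedBall x (16 * t) \ closedBall x t

/-- admissible functions at scale `t` -/
def Adm (w : Set X → ℝ) (t : ℝ) (g : X → ℝ) : Prop :=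
  (∀ x, g x ^ 2 ≤ w (closedBall x (8 * t))) ∧
    ∀ x x', dist x x' ≤ 2 * t → (g x - g x') ^ 2 ≤ w (Ann t x)

theorem core_sub {x p : X} (h1 : 2 * t < dist x p) (h2 : dist x p ≤ 15 * t) :
    closedBall p t ⊆ Ann t x := fun y hy => by
  have a := mem_closedBall.1 hy
  refine ⟨mem_closedBall.2 ?_, fun hh => ?_⟩
  · linarith [dist_triangle_right y x p]
  · linarith [mem_closedBall.1 hh, dist_triangle_left x p y]

theorem ball_add (W : Ms w) (ht : 0 < t) (x : X) :
    w (closedBall x (16 * t)) = w (closedBall x t) + w (Ann t x) :=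
  W.add _ _ (closedBall_subset_closedBall (by linarith))

/-- heavy points -/
def Heavy (w : Set X → ℝ) (t : ℝ) (p : X) : Prop := 2 * w (Ann t p) < w (closedBall p t)

theorem heavy_close (W : Ms w) {p p' : X} (h : Heavy w t p) (h' : Heavy w t p')
    (hd : dist p p' ≤ 15 * t) : dist p p' ≤ 2 * t := by
  by_contra hh
  have a := W.mono (core_sub (not_le.1 hh) hd)
  have b := W.mono (core_sub (x := p') (p := p) (dist_comm p p' ▸ not_le.1 hh) (dist_comm p p' ▸ hd))
  unfold Heavy at h h'
  linarith [W.nn (Ann t p)]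

/-- the chosen heavy point near `x` -/
noncomputable def cen [Nonempty X] (w : Set X → ℝ) (t : ℝ) (x : X) : X :=
  Classical.epsilon fun p => Heavy w t p ∧ dist x p ≤ 8 * t

theorem cen_eq [Nonempty X] (W : Ms w) (ht : 0 < t) {p : X} (h : Heavy w t p) :
    ∃ c, Heavy w t c ∧ dist c p ≤ 2 * t ∧ ∀ x, dist x p ≤ 6 * t → cen w t x = c := by
  have h1 := Classical.epsilon_spec (p := fun q => Heavy w t q ∧ dist q p ≤ 2 * t)
    ⟨p, h, by rw [dist_self]; linarith⟩
  refine ⟨_, h1.1, h1.2, fun x hx => congrArg Classical.epsilon (funext fun q => propext ?_)⟩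
  refine and_congr_right fun hq => ⟨fun h2 => heavy_close W hq h ?_, fun h2 => ?_⟩
  · linarith [dist_triangle_left q p x]
  · linarith [dist_triangle_right x q p]

/-- `x` is close to its heavy point -/
def Ins [Nonempty X] (w : Set X → ℝ) (t : ℝ) (x : X) : Prop :=
  Heavy w t (cen w t x) ∧ dist x (cen w t x) ≤ 4 * t

theorem cen_same [Nonempty X] (W : Ms w) (ht : 0 < t) {x x' : X} (h : Ins w t x)
    (hd : dist x x' ≤ 2 * t) : cen w t x' = cen w t x := by
  obtain ⟨c, -, -, hc⟩ := cen_eq W ht h.1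
  rw [hc x' (by linarith [dist_triangle_left x' (cen w t x) x, h.2])]
  exact (hc x (by linarith [h.2])).symm

theorem one_scale [Nonempty X] (W : Ms w) (ht : 0 < t) (c : Fin n → ℝ) (u : Fin n → Set X → ℝ)
    (hw : ∀ A, w A = ∑ j, c j ^ 2 * u j A) (g : Fin n → X → ℝ) (hg : ∀ j, Adm (u j) t (g j)) :
    ∃ (G : (Fin n → Bool) → X → ℝ) (r : Fin n → X → ℝ), (∀ ε, Adm w t (G ε)) ∧
      (∀ x, ∑ j, (c j * r j x) ^ 2 ≤ 6 * w (Ann t x)) ∧
      ∀ j x, ∑ ε : Fin n → Bool, sg (ε j) * G ε x = 2 ^ n / 8 * (c j * (g j x - r j x)) := by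
  classical
  choose F hF1 hF2 using exists_RZ (n := n)
  have a1 : ∀ p, ∑ j, (c j * g j p) ^ 2 ≤ w (closedBall p (8 * t)) := fun p => by
    rw [hw]
    exact sum_le_sum fun j _ => by
      rw [mul_pow]; exact mul_le_mul_of_nonneg_left ((hg j).1 p) (sq_nonneg _)
  have b8 : ∀ p : X, w (closedBall p (8 * t)) ≤ w (closedBall p t) + w (Ann t p) := fun p =>
    (W.mono (closedBall_subset_closedBall (by linarith))).trans_eq (ball_add W ht p)
  have a2 : ∀ p ε, Heavy w t p → (F (fun j => c j * g j p) ε / 8) ^ 2 ≤ w (closedBall p t) :=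
    fun p ε hp => by
      have := hF1 (fun j => c j * g j p) ε
      unfold Heavy at hp
      rw [div_pow]
      linarith [a1 p, b8 p, W.nn (Ann t p)]
  refine ⟨fun ε x => if Ins w t x then F (fun j => c j * g j (cen w t x)) ε / 8 else 0,
    fun j x => g j x - if Ins w t x then g j (cen w t x) else 0,
    fun ε => ⟨fun x => ?_, fun x x' hd => ?_⟩, fun x => ?_, fun j x => ?_⟩
  · beta_reduce
    split_ifs with h
    · refine (a2 _ ε h.1).trans (W.mono (closedBall_subset_closedBall' ?_))
      linarith [h.2, dist_comm x (cen w t x)]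
    · simpa using W.nn _
  · beta_reduce
    by_cases h : Ins w t x <;> by_cases h' : Ins w t x'
    · rw [if_pos h, if_pos h', cen_same W ht h hd, sub_self]
      simpa using W.nn _
    · rw [if_pos h, if_neg h', sub_zero]
      have e := cen_same W ht h hd
      have h1 : 4 * t < dist x' (cen w t x) := not_le.1 fun hh => h' ⟨e ▸ h.1, e ▸ hh⟩
      refine (a2 _ ε h.1).trans (W.mono (core_sub ?_ (by linarith [h.2])))
      linarith [dist_triangle_left x' (cen w t x) x]
    · rw [if_neg h, if_pos h', zero_sub, neg_sq]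
      have e := cen_same W ht h' (dist_comm x x' ▸ hd)
      have h1 : 4 * t < dist x (cen w t x') := not_le.1 fun hh => h ⟨e ▸ h'.1, e ▸ hh⟩
      refine (a2 _ ε h'.1).trans (W.mono (core_sub (by linarith) ?_))
      linarith [dist_triangle x x' (cen w t x'), h'.2]
    · rw [if_neg h, if_neg h', sub_self]
      simpa using W.nn _
  · beta_reduce
    have n0 := W.nn (Ann t x)
    split_ifs with h
    · rcases le_or_gt (dist x (cen w t x)) (2 * t) with h1 | h1
      · refine le_trans ?_ (by linarith : w (Ann t x) ≤ 6 * w (Ann t x))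
        rw [hw]
        exact sum_le_sum fun j _ => by
          rw [mul_pow]; exact mul_le_mul_of_nonneg_left ((hg j).2 _ _ h1) (sq_nonneg _)
      · have h2 := W.mono (core_sub h1 (by linarith [h.2]))
        have h3 : w (closedBall x (8 * t)) ≤ w (closedBall (cen w t x) (16 * t)) :=
          W.mono (closedBall_subset_closedBall' (by linarith [h.2]))
        have h4 := ball_add W ht (cen w t x)
        have h5 := h.1
        unfold Heavy at h5
        have h6 : ∑ j, (c j * (g j x - g j (cen w t x))) ^ 2 ≤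
            2 * ∑ j, (c j * g j x) ^ 2 + 2 * ∑ j, (c j * g j (cen w t x)) ^ 2 := by
          rw [mul_sum, mul_sum, ← sum_add_distrib]
          exact sum_le_sum fun j _ => by
            nlinarith [sq_nonneg (c j * g j x + c j * g j (cen w t x))]
        linarith [a1 x, a1 (cen w t x), b8 (cen w t x)]
    · have h1 : ¬ Heavy w t x := fun hx => by
        obtain ⟨q, h1, h2, h3⟩ := cen_eq W ht hx
        have e := h3 x (by rw [dist_self]; linarith)
        exact h ⟨e ▸ h1, e ▸ (by linarith [dist_comm x q])⟩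
      unfold Heavy at h1
      simp only [sub_zero]
      linarith [a1 x, b8 x, not_lt.1 h1]
  · beta_reduce
    split_ifs with h
    · simp only [← mul_div_assoc, ← sum_div, hF2]
      ring
    · simp

end Pool.Agent.Work.MP_3e1351_al.Ct3
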