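import Pool.Agent.Work.MP_3e1351_al.Ct.Defs

/-! Coarse embeddings. -/

namespace Pool.Agent.Work.MP_3e1351_al

/-- `ι` is a coarse embedding: bounded distances stay bounded and large distances become large,
uniformly. -/
def IsCoarseEmbedding {X E : Type} [MetricSpace X] [NormedAddCommGroup E] (ι : X → E) : Prop :=
  (∀ r : ℝ, ∃ C : ℝ, ∀ x y, dist x y ≤ r → dist (ι x) (ι y) ≤ C) ∧
    ∀ C : ℝ, ∃ r : ℝ, ∀ x y, r ≤ dist x y → C ≤ dist (ι x) (ι y)

end Pool.Agent.Work.MP_3e1351_al
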