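import Pool.Agent.Work.MP_3e1351_al.Ct.Main
import Pool.Agent.Work.MP_3e1351_al.Ct3.Defs

/-! The space normed by an invariant class of test functions that is closed under Riesz products. -/

namespace Pool.Agent.Work.MP_3e1351_al.Ct3

open Finset Pool.Agent.Work.MP_3e1351_al.Ct
open scoped BoundedContinuousFunction

variable {X : Type} [MetricSpace X]

/-- the properties of the class of test functions -/
structure Cls (T : Set (X → ℝ)) : Prop where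
  zero : (fun _ => 0) ∈ T
  bdd : ∀ r : ℝ, ∃ C : ℝ, 0 ≤ C ∧ ∀ φ ∈ T, ∀ x y, dist x y ≤ r → |φ x - φ y| ≤ C
  inv : ∀ g : X ≃ᵢ X, ∀ φ ∈ T, (fun x => φ (g x)) ∈ T
  far : ∀ C : ℝ, ∃ r : ℝ, ∀ x y, r ≤ dist x y → ∃ φ ∈ T, C ≤ |φ x - φ y|
  clo : ∀ (n : ℕ) (φ : Fin n → X → ℝ) (c : Fin n → ℝ), (∀ j, φ j ∈ T) → ∑ j, c j ^ 2 ≤ 1 →
    ∃ ψ : (Fin n → Bool) → X → ℝ, (∀ ε, ψ ε ∈ T) ∧
      ∀ j x, ∑ ε : Fin n → Bool, sg (ε j) * ψ ε x = 2 ^ n / 8 * (c j * φ j x)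

/-- the class as a discrete space -/
def Tt (T : Set (X → ℝ)) : Type := {φ // φ ∈ T}

variable {T : Set (X → ℝ)}

instance : TopologicalSpace (Tt T) := ⊥

instance : DiscreteTopology (Tt T) := ⟨rfl⟩

/-- the molecule of two points -/
noncomputable def ml (h : Cls T) (x y : X) : Tt T →ᵇ ℝ :=
  ⟨⟨fun φ => φ.1 x - φ.1 y, continuous_of_discreteTopology⟩, by
    obtain ⟨C, -, hC⟩ := h.bdd (dist x y)
    exact ⟨_, fun φ φ' => (dist_le_norm_add_norm _ _).trans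
      (add_le_add (hC _ φ.2 x y le_rfl) (hC _ φ'.2 x y le_rfl))⟩⟩

theorem ml_add (h : Cls T) (x y z : X) : ml h x y + ml h y z = ml h x z := by
  ext φ
  exact sub_add_sub_cancel _ _ _

/-- the linear action on bounded functions -/
noncomputable def pj (h : Cls T) (g : X ≃ᵢ X) : (Tt T →ᵇ ℝ) →L[ℝ] (Tt T →ᵇ ℝ) :=
  BoundedContinuousFunction.compContinuousCLM ℝ ℝ
    ⟨fun φ => ⟨fun x => φ.1 (g x), h.inv g _ φ.2⟩, continuous_of_discreteTopology⟩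

theorem pj_ml (h : Cls T) (g : X ≃ᵢ X) (x y : X) : pj h g (ml h x y) = ml h (g x) (g y) := rfl

theorem pj_mul (h : Cls T) (g k : X ≃ᵢ X) (v : Tt T →ᵇ ℝ) : pj h (g * k) v = pj h g (pj h k v) := rfl

theorem pj_one (h : Cls T) (v : Tt T →ᵇ ℝ) : pj h 1 v = v := rfl

theorem pj_le (h : Cls T) (g : X ≃ᵢ X) (v : Tt T →ᵇ ℝ) : ‖pj h g v‖ ≤ ‖v‖ :=
  BoundedContinuousFunction.norm_compContinuous_le _ _

theorem pj_norm (h : Cls T) (g : X ≃ᵢ X) (v : Tt T →ᵇ ℝ) : ‖pj h g v‖ = ‖v‖ := by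
  refine (pj_le h g v).antisymm ?_
  have := pj_le h g⁻¹ (pj h g v)
  rwa [← pj_mul, inv_mul_cancel, pj_one] at this

/-- the span of the molecules -/
noncomputable def sq0 (h : Cls T) : Submodule ℝ (Tt T →ᵇ ℝ) :=
  Submodule.span ℝ (Set.range fun p : X × X => ml h p.1 p.2)

/-- the closed span of the molecules -/
noncomputable def Fs (h : Cls T) : Submodule ℝ (Tt T →ᵇ ℝ) := (sq0 h).topologicalClosure

theorem ml_mem (h : Cls T) (x y : X) : ml h x y ∈ Fs h :=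
  (sq0 h).le_topologicalClosure (Submodule.subset_span ⟨(x, y), rfl⟩)

theorem Fs_le (h : Cls T) {W : Submodule ℝ (Tt T →ᵇ ℝ)} (hW : IsClosed (W : Set (Tt T →ᵇ ℝ)))
    (hm : ∀ x y, ml h x y ∈ W) : Fs h ≤ W :=
  (sq0 h).topologicalClosure_minimal
    (Submodule.span_le.2 (by rintro _ ⟨p, rfl⟩; exact hm _ _)) hW

theorem pj_mem (h : Cls T) (g : X ≃ᵢ X) {v : Tt T →ᵇ ℝ} (hv : v ∈ Fs h) : pj h g v ∈ Fs h :=
  Fs_le h (W := (Fs h).comap (pj h g).toLinearMap)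
    ((sq0 h).isClosed_topologicalClosure.preimage (pj h g).continuous)
    (fun x y => ml_mem h (g x) (g y)) hv

/-- the linear part of the action -/
noncomputable def ln (h : Cls T) (g : X ≃ᵢ X) : Fs h ≃ₗᵢ[ℝ] Fs h where
  toFun v := ⟨pj h g v, pj_mem h g v.2⟩
  invFun v := ⟨pj h g⁻¹ v, pj_mem h g⁻¹ v.2⟩
  map_add' v w := Subtype.ext ((pj h g).map_add v w)
  map_smul' c v := Subtype.ext ((pj h g).map_smul c v)
  left_inv v := Subtype.ext (by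
    show pj h g⁻¹ (pj h g v) = v
    rw [← pj_mul, inv_mul_cancel, pj_one])
  right_inv v := Subtype.ext (by
    show pj h g (pj h g⁻¹ v) = v
    rw [← pj_mul, mul_inv_cancel, pj_one])
  norm_map' v := pj_norm h g v

/-- the embedding -/
noncomputable def em (h : Cls T) (x₀ x : X) : Fs h := ⟨ml h x x₀, ml_mem h x x₀⟩

theorem ln_mul (h : Cls T) (g k : X ≃ᵢ X) (v : Fs h) : ln h (g * k) v = ln h g (ln h k v) := rfl

theorem ln_em (h : Cls T) (x₀ : X) (g : X ≃ᵢ X) (x : X) :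
    em h x₀ (g x₀) + ln h g (em h x₀ x) = em h x₀ (g x) := by
  refine Subtype.ext ?_
  show ml h (g x₀) x₀ + ml h (g x) (g x₀) = ml h (g x) x₀
  rw [add_comm, ml_add]

theorem dist_em (h : Cls T) (x₀ x y : X) : dist (em h x₀ x) (em h x₀ y) = ‖ml h x y‖ := by
  show dist (ml h x x₀) (ml h y x₀) = _
  rw [dist_eq_norm, ← ml_add h x y x₀, add_sub_cancel_right]

theorem loc_cst (h : Cls T) (g : X ≃ᵢ X) {u : Tt T →ᵇ ℝ} (hu : u ∈ sq0 h) :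
    ∃ F : Finset X, ∀ k : X ≃ᵢ X, (∀ x ∈ F, k x = g x) → pj h k u = pj h g u := by
  classical
  induction hu using Submodule.span_induction with
  | mem u hu =>
    obtain ⟨p, rfl⟩ := hu
    exact ⟨{p.1, p.2}, fun k hh => by
      rw [pj_ml, pj_ml, hh p.1 (by simp), hh p.2 (by simp)]⟩
  | zero => exact ⟨∅, fun k _ => by rw [map_zero, map_zero]⟩
  | add u w _ _ h1 h2 =>
    obtain ⟨F, hF⟩ := h1
    obtain ⟨G, hG⟩ := h2
    exact ⟨F ∪ G, fun k hh => by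
      rw [map_add, map_add, hF k fun x hx => hh x (mem_union_left _ hx),
        hG k fun x hx => hh x (mem_union_right _ hx)]⟩
  | smul c u _ h1 =>
    obtain ⟨F, hF⟩ := h1
    exact ⟨F, fun k hh => by rw [map_smul, map_smul, hF k hh]⟩

theorem ln_cont (h : Cls T) (v : Fs h) (g : X ≃ᵢ X) (ε : ℝ) (hε : 0 < ε) :
    ∃ F : Finset X, ∀ k : X ≃ᵢ X, (∀ x ∈ F, k x = g x) → dist (ln h k v) (ln h g v) < ε := by
  obtain ⟨u, hu, hd⟩ := Metric.mem_closure_iff.1 (show (v : Tt T →ᵇ ℝ) ∈ closure (sq0 h) from v.2)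
    (ε / 2) (half_pos hε)
  obtain ⟨F, hF⟩ := loc_cst h g hu
  refine ⟨F, fun k hh => ?_⟩
  show dist (pj h k v) (pj h g v) < ε
  have e : pj h k v - pj h g v = pj h k (v - u) - pj h g (v - u) := by
    rw [map_sub, map_sub, hF k hh]
    abel
  rw [dist_eq_norm, e]
  refine (norm_sub_le _ _).trans_lt ?_
  rw [pj_norm, pj_norm, ← dist_eq_norm]
  linarith

theorem em_coarse (h : Cls T) (x₀ : X) : IsCoarseEmbedding (em h x₀) := by
  refine ⟨fun r => ?_, fun C => ?_⟩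
  · obtain ⟨C, C0, hC⟩ := h.bdd r
    exact ⟨C, fun x y hd => (dist_em h x₀ x y).trans_le
      ((BoundedContinuousFunction.norm_le C0).2 fun φ => hC _ φ.2 x y hd)⟩
  · obtain ⟨r, hr⟩ := h.far C
    refine ⟨r, fun x y hd => ?_⟩
    obtain ⟨φ, hφ, h1⟩ := hr x y hd
    exact (h1.trans ((ml h x y).norm_coe_le_norm ⟨φ, hφ⟩)).trans_eq (dist_em h x₀ x y).symm

theorem norming (h : Cls T) (v : Tt T →ᵇ ℝ) : ∃ (φ : Tt T) (b : Bool), ‖v‖ / 2 ≤ sg b * v φ := by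
  by_contra hh
  push Not at hh
  have h1 : ∀ φ, ‖v φ‖ < ‖v‖ / 2 := fun φ => by
    have a := hh φ true
    have b := hh φ false
    simp only [sg, if_true, one_mul, Bool.false_eq_true, if_false, neg_mul] at a b
    exact abs_lt.2 ⟨by linarith, a⟩
  have h2 := (BoundedContinuousFunction.norm_le (f := v) (by positivity)).2 fun φ => (h1 φ).le
  have h3 := h1 ⟨_, h.zero⟩
  linarith [norm_nonneg (v ⟨_, h.zero⟩)]

/-- evaluation at a test function -/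
noncomputable def evl (φ : Tt T) : (Tt T →ᵇ ℝ) →L[ℝ] ℝ := BoundedContinuousFunction.evalCLM ℝ φ

theorem dual2 (h : Cls T) {n : ℕ} (x : Fin n → Fs h) (a : Fin n → ℝ) (ha : ∀ j, 0 ≤ a j)
    (h2 : ∑ j, a j ^ 2 ≤ 1) :
    2 ^ n / 16 * ∑ j, a j * ‖x j‖ ≤ ∑ ε : Fin n → Bool, ‖∑ j, sg (ε j) • x j‖ := by
  choose φ b hφ using fun j => norming h (x j : Tt T →ᵇ ℝ)
  have hc : ∑ j, (sg (b j) * a j) ^ 2 ≤ 1 := by
    refine le_of_eq_of_le (sum_congr rfl fun j _ => ?_) h2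
    rw [← sq_abs, abs_mul, abs_sg, one_mul, sq_abs]
  obtain ⟨ψ, hψ, hr⟩ := h.clo n (fun j => (φ j).1) _ (fun j => (φ j).2) hc
  have rel : ∀ j, ∀ v ∈ Fs h, ∑ ε : Fin n → Bool, sg (ε j) * v ⟨ψ ε, hψ ε⟩ =
      2 ^ n / 8 * (sg (b j) * a j) * v (φ j) := fun j v hv => by
    let L : (Tt T →ᵇ ℝ) →L[ℝ] ℝ :=
      ∑ ε : Fin n → Bool, sg (ε j) • evl (⟨ψ ε, hψ ε⟩ : Tt T) -
        (2 ^ n / 8 * (sg (b j) * a j)) • evl (φ j)
    have hL : ∀ w, L w = ∑ ε : Fin n → Bool, sg (ε j) * w ⟨ψ ε, hψ ε⟩ -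
        2 ^ n / 8 * (sg (b j) * a j) * w (φ j) := fun w => by
      simp only [L, _root_.sub_apply, _root_.sum_apply, _root_.smul_apply, smul_eq_mul]
      rfl
    have h1 : L v = 0 := Fs_le h (W := LinearMap.ker L.toLinearMap) L.isClosed_ker
      (fun x y => (hL _).trans (by
        show ∑ ε : Fin n → Bool, sg (ε j) * (ψ ε x - ψ ε y) -
          2 ^ n / 8 * (sg (b j) * a j) * ((φ j).1 x - (φ j).1 y) = 0
        simp only [mul_sub, sum_sub_distrib, hr]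
        ring)) hv
    exact sub_eq_zero.1 ((hL v).symm.trans h1)
  have h3 : ∀ ε : Fin n → Bool, ∑ j, sg (ε j) * (x j : Tt T →ᵇ ℝ) ⟨ψ ε, hψ ε⟩ ≤
      ‖∑ j, sg (ε j) • x j‖ := fun ε => by
    have e : ((∑ j, sg (ε j) • x j : Fs h) : Tt T →ᵇ ℝ) ⟨ψ ε, hψ ε⟩ =
        ∑ j, sg (ε j) * (x j : Tt T →ᵇ ℝ) ⟨ψ ε, hψ ε⟩ := by
      rw [Submodule.coe_sum, BoundedContinuousFunction.sum_apply]
      rfl
    rw [← e]
    exact (le_abs_self _).trans (BoundedContinuousFunction.norm_coe_le_norm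
      ((∑ j, sg (ε j) • x j : Fs h) : Tt T →ᵇ ℝ) _)
  refine le_trans ?_ (sum_le_sum fun ε _ => h3 ε)
  rw [sum_comm, mul_sum]
  refine sum_le_sum fun j _ => ?_
  rw [rel j _ (x j).2]
  have a2 : ‖x j‖ / 2 ≤ sg (b j) * (x j : Tt T →ᵇ ℝ) (φ j) := hφ j
  have a3 : (0 : ℝ) ≤ 2 ^ n / 8 * a j := mul_nonneg (by positivity) (ha j)
  refine le_of_eq_of_le ?_ ((mul_le_mul_of_nonneg_left a2 a3).trans (le_of_eq ?_)) <;> ring

theorem cotype2 (h : Cls T) : HasCotype 2 (Fs h) := by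
  refine ⟨16, fun n x => ?_⟩
  simp only [Real.rpow_two]
  rw [← Real.sqrt_eq_rpow]
  have hS : 0 ≤ ∑ i, ‖x i‖ ^ 2 := sum_nonneg fun i _ => by positivity
  rcases hS.eq_or_lt with e | hS'
  · rw [← e, Real.sqrt_zero]
    positivity
  obtain ⟨S, hT⟩ : ∃ S, S = √(∑ i, ‖x i‖ ^ 2) := ⟨_, rfl⟩
  have S0 : 0 < S := hT ▸ Real.sqrt_pos.2 hS'
  have S2 : S ^ 2 = ∑ i, ‖x i‖ ^ 2 := by rw [hT, Real.sq_sqrt hS]
  have h4 := dual2 h x (fun j => ‖x j‖ / S) (fun j => by positivity) (by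
    rw [sum_congr rfl fun j _ => div_pow ‖x j‖ S 2, ← sum_div, S2, div_self hS'.ne'])
  have h5 : ∑ j, ‖x j‖ / S * ‖x j‖ = S := by
    rw [sum_congr rfl (g := fun j => ‖x j‖ ^ 2 / S) fun j _ => by ring, ← sum_div, ← S2]
    field_simp
  rw [h5] at h4
  rw [← hT, ← mul_div_assoc, le_div_iff₀ (by positivity)]
  have e : ∑ ε : Fin n → Bool, ‖∑ j, sg (ε j) • x j‖ =
      ∑ ε : Fin n → Bool, ‖∑ i, (if ε i then (1 : ℝ) else -1) • x i‖ := rfl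
  rw [← e]
  linarith

theorem unb {E : Type} [NormedAddCommGroup E] [NormedSpace ℝ E] (hX : IsRationalUrysohn X)
    (x₀ : X) (α : (X ≃ᵢ X) →* (E ≃ᵃⁱ[ℝ] E)) (ι : X → E) (h : ∀ g x, α g (ι x) = ι (g x))
    (hι : IsCoarseEmbedding ι) (v : E) (R : ℝ) : ∃ g, R < dist (α g v) v := by
  obtain ⟨r, hr⟩ := hι.2 (R + 2 * dist (ι x₀) v + 1)
  obtain ⟨N, hN⟩ := exists_nat_ge r
  obtain ⟨g, hg⟩ := far hX x₀ N
  refine ⟨g, ?_⟩
  have a1 := hr (g x₀) x₀ (hN.trans_eq hg.symm)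
  have a2 := dist_triangle4 (α g (ι x₀)) (α g v) v (ι x₀)
  rw [(α g).dist_map, h, dist_comm v] at a2
  linarith

theorem fin2 (E : Type) [NormedAddCommGroup E] [NormedSpace ℝ E]
    [CompleteSpace E] (L : (X ≃ᵢ X) → E ≃ₗᵢ[ℝ] E) (ι : X → E) (x₀ : X)
    (hL : ∀ g h v, L (g * h) v = L g (L h v)) (hι : ∀ g x, ι (g x₀) + L g (ι x) = ι (g x))
    (hc : ∀ v g ε, 0 < ε → ∃ F : Finset X, ∀ h : X ≃ᵢ X, (∀ x ∈ F, h x = g x) →
      dist (L h v) (L g v) < ε) (hq : HasCotype 2 E) (hd : IsCoarseEmbedding ι) :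
    ∃ (E : Type) (_ : NormedAddCommGroup E) (_ : NormedSpace ℝ E) (_ : CompleteSpace E)
      (α : (X ≃ᵢ X) →* (E ≃ᵃⁱ[ℝ] E)) (ι : X → E),
      HasCotype 2 E ∧ IsContinuousAction α ∧ IsCoarseEmbedding ι ∧ (∀ g x, α g (ι x) = ι (g x)) ∧
      (IsRationalUrysohn X → ∀ (v : E) (R : ℝ), ∃ g, R < dist (α g v) v) := by
  obtain ⟨α, a1, a2⟩ := package L ι x₀ hL hι hc
  exact ⟨E, inferInstance, inferInstance, inferInstance, α, ι, hq, a1, hd, a2,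
    fun hX => unb hX x₀ α ι a2 hd⟩

theorem of_cls (h : Cls T) (x₀ : X) :
    ∃ (E : Type) (_ : NormedAddCommGroup E) (_ : NormedSpace ℝ E) (_ : CompleteSpace E)
      (α : (X ≃ᵢ X) →* (E ≃ᵃⁱ[ℝ] E)) (ι : X → E),
      HasCotype 2 E ∧ IsContinuousAction α ∧ IsCoarseEmbedding ι ∧ (∀ g x, α g (ι x) = ι (g x)) ∧
      (IsRationalUrysohn X → ∀ (v : E) (R : ℝ), ∃ g, R < dist (α g v) v) := by
  have : CompleteSpace (Fs h) := (sq0 h).isClosed_topologicalClosure.completeSpace_coe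
  refine fin2 (Fs h) (ln h) (em h x₀) x₀ ?_ ?_ ?_ (cotype2 h) ?_
  · exact ln_mul _
  · exact ln_em _ x₀
  · exact ln_cont _
  · exact em_coarse h x₀

end Pool.Agent.Work.MP_3e1351_al.Ct3
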