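import Pool.Agent.Work.MP_3e1351_al.Ct3.Clo

/-! The class of test functions. -/

namespace Pool.Agent.Work.MP_3e1351_al.Ct3

open Finset Metric Pool.Agent.Work.MP_3e1351_al.Ct

variable {X : Type} [MetricSpace X] {w : Set X → ℝ}

/-- the weights of the scales -/
noncomputable def lam (i : ℕ) : ℝ := 1 / (i + 2)

theorem lam_pos (i : ℕ) : 0 < lam i := by unfold lam; positivity

theorem lam_le (i : ℕ) : lam i ≤ 1 := by
  have : (0 : ℝ) ≤ i := Nat.cast_nonneg i
  rw [lam, div_le_one (by positivity)]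
  linarith

theorem lam_sq (N : ℕ) : ∑ i ∈ range N, lam i ^ 2 ≤ 1 := by
  have h : ∑ i ∈ range N, lam i ^ 2 ≤ 1 - 1 / ((N : ℝ) + 1) := by
    induction N with
    | zero => simp
    | succ N ih =>
      rw [sum_range_succ]
      have n0 : (0 : ℝ) ≤ N := Nat.cast_nonneg N
      have h1 : lam N ^ 2 ≤ 1 / ((N : ℝ) + 1) - 1 / ((N : ℝ) + 1 + 1) := by
        rw [lam, div_pow, one_pow, div_sub_div _ _ (by positivity) (by positivity),
          div_le_div_iff₀ (by positivity) (by positivity)]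
        nlinarith
      push_cast
      linarith
  have : (0 : ℝ) ≤ 1 / ((N : ℝ) + 1) := by positivity
  linarith

theorem lam_big (C : ℝ) : ∃ N, C ≤ ∑ i ∈ range N, lam i := by
  obtain ⟨N, hN⟩ := (Real.tendsto_sum_range_one_div_nat_succ_atTop.eventually_ge_atTop (2 * C)).exists
  refine ⟨N, ?_⟩
  have : ∑ i ∈ range N, 1 / ((i : ℝ) + 1) ≤ 2 * ∑ i ∈ range N, lam i := by
    rw [mul_sum]
    refine sum_le_sum fun i _ => ?_
    have : (0 : ℝ) ≤ i := Nat.cast_nonneg i
    rw [lam, mul_one_div, div_le_div_iff₀ (by positivity) (by positivity)]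
    linarith
  linarith

theorem ann_sum (W : Ms w) (x : X) (N : ℕ) : ∑ i ∈ range N, w (Ann (16 ^ i) x) ≤ 1 := by
  have h : ∑ i ∈ range N, w (Ann (16 ^ i) x) ≤ w (closedBall x (16 ^ N)) := by
    induction N with
    | zero => simpa using W.nn _
    | succ N ih =>
      rw [sum_range_succ, pow_succ', ball_add W (by positivity)]
      linarith
  exact h.trans ((W.mono (Set.subset_univ _)).trans W.le)

/-- the test functions -/
def Test (X : Type) [MetricSpace X] : Set (X → ℝ) :=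
  {φ | ∃ (N : ℕ) (b : X → ℝ) (g : ℕ → X → ℝ) (w : Set X → ℝ), (∀ x, |b x| ≤ 1) ∧ Ms w ∧
    (∀ i, Adm w (16 ^ i) (g i)) ∧ ∀ x, φ x = b x + ∑ i ∈ range N, lam i * g i x}

theorem adm_zero (W : Ms w) (t : ℝ) : Adm w t fun _ => 0 :=
  ⟨fun x => by simpa using W.nn _, fun x y _ => by simpa using W.nn _⟩

theorem pad (W : Ms w) {g : ℕ → X → ℝ} (hg : ∀ i, Adm w (16 ^ i) (g i)) {N N' : ℕ} (h : N ≤ N') :
    ∃ g' : ℕ → X → ℝ, (∀ i, Adm w (16 ^ i) (g' i)) ∧
      ∀ x, ∑ i ∈ range N, lam i * g i x = ∑ i ∈ range N', lam i * g' i x := by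
  refine ⟨fun i => if i < N then g i else fun _ => 0, fun i => ?_, fun x => ?_⟩
  · beta_reduce
    split_ifs
    exacts [hg i, adm_zero W _]
  · rw [← sum_subset (range_mono h) fun i _ hi => by
      beta_reduce
      rw [if_neg (mt mem_range.2 hi), mul_zero]]
    exact sum_congr rfl fun i hi => by
      beta_reduce
      rw [if_pos (mem_range.1 hi)]

theorem test_bdd (r : ℝ) : ∃ C : ℝ, 0 ≤ C ∧ ∀ φ ∈ Test X, ∀ x y, dist x y ≤ r → |φ x - φ y| ≤ C := by
  obtain ⟨M, hM⟩ := pow_unbounded_of_one_lt r (by norm_num : (1 : ℝ) < 16)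
  refine ⟨2 + (2 * M + 1), by positivity, ?_⟩
  rintro φ ⟨N, b, g, w, hb, W, hg, e⟩ x y hd
  have g1 : ∀ i z, |g i z| ≤ 1 := fun i z => (sq_le_one_iff_abs_le_one _).1
    (((hg i).1 z).trans ((W.mono (Set.subset_univ _)).trans W.le))
  have h1 : ∀ i, |lam i * g i x - lam i * g i y| ≤
      2 * (if i < M then 1 else 0) + (lam i ^ 2 + w (Ann (16 ^ i) x)) / 2 := fun i => by
    rw [← mul_sub, abs_mul, abs_of_pos (lam_pos i)]
    have n0 := W.nn (Ann (16 ^ i) x)
    split_ifs with h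
    · have a : |g i x - g i y| ≤ 2 := (abs_sub _ _).trans (by linarith [g1 i x, g1 i y])
      have := mul_le_mul (lam_le i) a (abs_nonneg _) zero_le_one
      linarith [sq_nonneg (lam i)]
    · have a : (16 : ℝ) ^ M ≤ 16 ^ i := pow_le_pow_right₀ (by norm_num) (not_lt.1 h)
      have p : (0 : ℝ) < 16 ^ i := by positivity
      have := (hg i).2 x y (by linarith)
      rw [← sq_abs] at this
      nlinarith [sq_nonneg (lam i - |g i x - g i y|)]
  have h2 : ∑ i ∈ range N, (if i < M then (1 : ℝ) else 0) ≤ M := by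
    rw [sum_boole]
    have := card_le_card (show (range N).filter (· < M) ⊆ range M from
      fun i hi => mem_range.2 (mem_filter.1 hi).2)
    rw [card_range] at this
    exact_mod_cast this
  have h3 := (abs_sum_le_sum_abs _ _).trans (sum_le_sum (s := range N) fun i _ => h1 i)
  rw [sum_add_distrib, ← mul_sum, ← sum_div, sum_add_distrib, sum_sub_distrib] at h3
  rw [e, e, add_sub_add_comm]
  refine (abs_add_le _ _).trans (add_le_add ((abs_sub _ _).trans (by linarith [hb x, hb y])) ?_)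
  linarith [lam_sq N, ann_sum W x N]

theorem test_inv (k : X ≃ᵢ X) (φ : X → ℝ) (h : φ ∈ Test X) : (fun x => φ (k x)) ∈ Test X := by
  obtain ⟨N, b, g, w, hb, W, hg, e⟩ := h
  have p : ∀ x r, k.symm ⁻¹' closedBall x r = closedBall (k x) r := fun x r =>
    k.symm.preimage_closedBall x r
  refine ⟨N, fun x => b (k x), fun i x => g i (k x), fun A => w (k.symm ⁻¹' A), fun x => hb _,
    ⟨fun A => W.nn _, fun A B h => W.add _ _ (Set.preimage_mono h), W.le⟩,
    fun i => ⟨fun x => ?_, fun x y hd => ?_⟩, fun x => e _⟩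
  · beta_reduce
    rw [p]
    exact (hg i).1 _
  · have := (hg i).2 (k x) (k y) (by rwa [k.dist_eq])
    rw [Ann, ← p, ← p] at this
    exact this

theorem test_far (C : ℝ) : ∃ r : ℝ, ∀ x y : X, r ≤ dist x y → ∃ φ ∈ Test X, C ≤ |φ x - φ y| := by
  classical
  obtain ⟨N, hN⟩ := lam_big C
  refine ⟨4 * 16 ^ N + 1, fun x y hd => ⟨fun z => 0 + ∑ i ∈ range N, lam i *
    if dist z y ≤ 4 * 16 ^ i then 1 else 0, ⟨N, fun _ => 0,
      fun i z => if dist z y ≤ 4 * 16 ^ i then 1 else 0, fun A => if y ∈ A then 1 else 0,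
      fun _ => by simp, ⟨fun A => ?_, fun A B h => ?_, by simp⟩,
      fun i => ⟨fun z => ?_, fun z z' hz => ?_⟩, fun _ => rfl⟩, ?_⟩⟩
  · split_ifs <;> norm_num
  · by_cases h1 : y ∈ A
    · simp [h1, h h1]
    · simp [h1]
  · have p : (0 : ℝ) < 16 ^ i := by positivity
    beta_reduce
    by_cases h : dist z y ≤ 4 * 16 ^ i
    · rw [if_pos h, if_pos (mem_closedBall'.2 (by linarith)), one_pow]
    · rw [if_neg h]
      split_ifs <;> norm_num
  · have p : (0 : ℝ) < 16 ^ i := by positivity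
    have key : 2 * 16 ^ i < dist z y → dist z y ≤ 15 * 16 ^ i → y ∈ Ann (16 ^ i) z := fun a b =>
      core_sub a b (mem_closedBall_self p.le)
    beta_reduce
    by_cases h : dist z y ≤ 4 * 16 ^ i <;> by_cases h' : dist z' y ≤ 4 * 16 ^ i
    · rw [if_pos h, if_pos h']
      split_ifs <;> norm_num
    · rw [if_pos h, if_neg h', if_pos (key (by
        linarith [not_le.1 h', dist_triangle_left z' y z]) (by linarith))]
      norm_num
    · rw [if_neg h, if_pos h', if_pos (key (by linarith [not_le.1 h]) (by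
        linarith [dist_triangle z z' y]))]
      norm_num
    · rw [if_neg h, if_neg h']
      split_ifs <;> norm_num
  · have e1 : ∑ i ∈ range N, lam i * (if dist x y ≤ 4 * 16 ^ i then (1 : ℝ) else 0) = 0 :=
      sum_eq_zero fun i hi => by
        have a : (16 : ℝ) ^ i ≤ 16 ^ N := pow_le_pow_right₀ (by norm_num) (mem_range.1 hi).le
        rw [if_neg (not_le.2 (by linarith)), mul_zero]
    have e2 : ∑ i ∈ range N, lam i * (if dist y y ≤ 4 * 16 ^ i then (1 : ℝ) else 0) =
        ∑ i ∈ range N, lam i := sum_congr rfl fun i _ => by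
      rw [if_pos (by rw [dist_self]; positivity), mul_one]
    beta_reduce
    rw [e1, e2, zero_add, zero_add, zero_sub, abs_neg]
    exact hN.trans (le_abs_self _)

theorem test_clo [Nonempty X] (n : ℕ) (φ : Fin n → X → ℝ) (c : Fin n → ℝ) (h : ∀ j, φ j ∈ Test X)
    (hc : ∑ j, c j ^ 2 ≤ 1) : ∃ ψ : (Fin n → Bool) → X → ℝ, (∀ ε, ψ ε ∈ Test X) ∧
      ∀ j x, ∑ ε : Fin n → Bool, sg (ε j) * ψ ε x = 2 ^ n / 8 * (c j * φ j x) := by
  choose N b g0 u hb U hg0 e0 using h
  obtain ⟨M, hM⟩ : ∃ M, ∀ j, N j ≤ M := ⟨univ.sup N, fun j => le_sup (mem_univ j)⟩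
  choose g hg e1 using fun j => pad (U j) (hg0 j) (hM j)
  have W : Ms fun A => ∑ j, c j ^ 2 * u j A := by
    refine ⟨fun A => sum_nonneg fun j _ => mul_nonneg (sq_nonneg _) ((U j).nn A), fun A B h => ?_,
      (sum_le_sum fun j _ => mul_le_of_le_one_right (sq_nonneg _) (U j).le).trans hc⟩
    rw [← sum_add_distrib]
    exact sum_congr rfl fun j _ => by rw [(U j).add A B h, mul_add]
  choose G r hG hr hrel using fun i : ℕ => one_scale W (t := 16 ^ i) (by positivity) c u
    (fun _ => rfl) (fun j => g j i) fun j => hg j i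
  choose F hF1 hF2 using exists_RZ (n := n)
  have a1 : ∀ x, ∑ j, (c j * (b j x + ∑ i ∈ range M, lam i * r i j x)) ^ 2 ≤ 14 := fun x => by
    have h1 : ∀ j, (c j * (b j x + ∑ i ∈ range M, lam i * r i j x)) ^ 2 ≤
        2 * c j ^ 2 + 2 * ∑ i ∈ range M, (c j * r i j x) ^ 2 := fun j => by
      have s1 := sum_mul_sq_le_sq_mul_sq (range M) lam fun i => c j * r i j x
      have s2 := mul_le_of_le_one_left (sum_nonneg (s := range M) fun i _ =>
        sq_nonneg (c j * r i j x)) (lam_sq M)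
      have s3 : (c j * b j x) ^ 2 ≤ c j ^ 2 := by
        rw [mul_pow]
        exact mul_le_of_le_one_right (sq_nonneg _) ((sq_le_one_iff_abs_le_one _).2 (hb j x))
      rw [mul_add, mul_sum, sum_congr rfl (g := fun i => lam i * (c j * r i j x)) fun i _ => by ring]
      nlinarith [sq_nonneg (c j * b j x - ∑ i ∈ range M, lam i * (c j * r i j x))]
    refine (sum_le_sum fun j _ => h1 j).trans ?_
    rw [sum_add_distrib, ← mul_sum, ← mul_sum, sum_comm]
    have h2 := sum_le_sum (s := range M) fun i _ => hr i x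
    rw [← mul_sum] at h2
    linarith [ann_sum W x M]
  refine ⟨fun ε x => F (fun j => c j * (b j x + ∑ i ∈ range M, lam i * r i j x)) ε / 8 +
    ∑ i ∈ range M, lam i * G i ε x, fun ε => ⟨M, _, fun i => G i ε, _, fun x => ?_, W,
      fun i => hG i ε, fun _ => rfl⟩, fun j x => ?_⟩
  · rw [← sq_le_one_iff_abs_le_one, div_pow]
    linarith [hF1 (fun j => c j * (b j x + ∑ i ∈ range M, lam i * r i j x)) ε, a1 x]
  · have e2 : ∑ ε : Fin n → Bool, sg (ε j) * ∑ i ∈ range M, lam i * G i ε x =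
        ∑ i ∈ range M, lam i * (2 ^ n / 8 * (c j * (g j i x - r i j x))) := by
      simp only [mul_sum]
      rw [sum_comm]
      refine sum_congr rfl fun i _ => ?_
      rw [← hrel, mul_sum]
      exact sum_congr rfl fun ε _ => by ring
    have e3 : ∑ i ∈ range M, lam i * (2 ^ n / 8 * (c j * (g j i x - r i j x))) = 2 ^ n / 8 * c j *
        (∑ i ∈ range M, lam i * g j i x - ∑ i ∈ range M, lam i * r i j x) := by
      rw [← sum_sub_distrib, mul_sum]
      exact sum_congr rfl fun i _ => by ring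
    beta_reduce
    rw [sum_congr rfl fun ε _ => mul_add _ _ _, sum_add_distrib, e2, e3, e0, e1]
    simp only [← mul_div_assoc]
    rw [← sum_div, hF2]
    ring

theorem main (X : Type) [MetricSpace X] [Nonempty X] :
    ∃ (E : Type) (_ : NormedAddCommGroup E) (_ : NormedSpace ℝ E) (_ : CompleteSpace E)
      (α : (X ≃ᵢ X) →* (E ≃ᵃⁱ[ℝ] E)) (ι : X → E),
      HasCotype 2 E ∧ IsContinuousAction α ∧ IsCoarseEmbedding ι ∧ (∀ g x, α g (ι x) = ι (g x)) ∧
      (IsRationalUrysohn X → ∀ (v : E) (R : ℝ), ∃ g, R < dist (α g v) v) :=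
  of_cls (T := Test X) ⟨⟨0, fun _ => 0, fun _ _ => 0, fun _ => 0, fun _ => by simp,
    ⟨fun _ => le_rfl, fun _ _ _ => by simp, zero_le_one⟩,
    fun i => adm_zero ⟨fun _ => le_rfl, fun _ _ _ => by simp, zero_le_one⟩ _, fun _ => by simp⟩,
    test_bdd, test_inv, test_far, test_clo⟩ (Classical.arbitrary X)

end Pool.Agent.Work.MP_3e1351_al.Ct3
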